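import Mathlib

set_option autoImplicit false

/-!
# SC-EXT: periodic holomorphic functions on a strip with vanishing negative coefficients
(helper458 for project SC of helper245)
-/

open Complex MeasureTheory Metric Set Filter Topology

namespace Pool.Agent.Y458.SC

/-- the strip -/
def Str (l : ℝ) : Set ℂ := {ω : ℂ | -l < ω.re ∧ ω.re < l}

theorem isOpen_str (l : ℝ) : IsOpen (Str l) :=
  (isOpen_lt continuous_const Complex.continuous_re).inter
    (isOpen_lt Complex.continuous_re continuous_const)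

theorem per_nat {Z : ℂ → ℂ} {l : ℝ} (hper : ∀ ω ∈ Str l, Z (ω + 2 * Real.pi * I) = Z ω) (n : ℕ) :
    ∀ ω ∈ Str l, Z (ω + n * (2 * Real.pi * I)) = Z ω := by
  induction n with
  | zero => intro ω _; simp
  | succ n ih =>
    intro ω hω
    have h1 : ω + ((n + 1 : ℕ) : ℂ) * (2 * Real.pi * I) =
        (ω + n * (2 * Real.pi * I)) + 2 * Real.pi * I := by
      push_cast; ring
    have h2 : ω + n * (2 * Real.pi * I) ∈ Str l := by
      have : (ω + n * (2 * Real.pi * I)).re = ω.re := by simp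
      exact ⟨by rw [this]; exact hω.1, by rw [this]; exact hω.2⟩
    rw [h1, hper _ h2, ih ω hω]

theorem per_int {Z : ℂ → ℂ} {l : ℝ} (hper : ∀ ω ∈ Str l, Z (ω + 2 * Real.pi * I) = Z ω) (n : ℤ) :
    ∀ ω ∈ Str l, Z (ω + n * (2 * Real.pi * I)) = Z ω := by
  intro ω hω
  obtain ⟨m, rfl | rfl⟩ := n.eq_nat_or_neg
  · have := per_nat hper m ω hω
    push_cast
    exact this
  · have h2 : ω + ((-(m : ℤ) : ℤ) : ℂ) * (2 * Real.pi * I) ∈ Str l := by
      have : (ω + ((-(m : ℤ) : ℤ) : ℂ) * (2 * Real.pi * I)).re = ω.re := by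
        push_cast
        simp
      exact ⟨by rw [this]; exact hω.1, by rw [this]; exact hω.2⟩
    have h3 := per_nat hper m _ h2
    rw [← h3]
    congr 1
    push_cast
    ring

theorem eq_exp {Z : ℂ → ℂ} {l : ℝ} (hper : ∀ ω ∈ Str l, Z (ω + 2 * Real.pi * I) = Z ω)
    {ω ω' : ℂ} (h' : ω' ∈ Str l) (h : exp ω = exp ω') : Z ω = Z ω' := by
  obtain ⟨n, hn⟩ := Complex.exp_eq_exp_iff_exists_int.1 h
  rw [hn]
  exact per_int hper n ω' h'

/-- the annulus -/
def Ann (l : ℝ) : Set ℂ := {w : ℂ | Real.exp (-l) < ‖w‖ ∧ ‖w‖ < Real.exp l}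

theorem isOpen_ann (l : ℝ) : IsOpen (Ann l) :=
  (isOpen_lt continuous_const continuous_norm).inter (isOpen_lt continuous_norm continuous_const)

theorem ann_ne {l : ℝ} {w : ℂ} (h : w ∈ Ann l) : w ≠ 0 := by
  rw [← norm_pos_iff]
  exact (Real.exp_pos _).trans h.1

theorem log_mem {l : ℝ} {w : ℂ} (h : w ∈ Ann l) : log w ∈ Str l := by
  have hp : 0 < ‖w‖ := (Real.exp_pos _).trans h.1
  have h1 : (log w).re = Real.log ‖w‖ := Complex.log_re w
  constructor
  · rw [h1]; exact (Real.lt_log_iff_exp_lt hp).2 h.1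
  · rw [h1]; exact (Real.log_lt_iff_lt_exp hp).2 h.2

theorem diff_ann {Z : ℂ → ℂ} {l : ℝ} (hZ : DifferentiableOn ℂ Z (Str l))
    (hper : ∀ ω ∈ Str l, Z (ω + 2 * Real.pi * I) = Z ω) {w₀ : ℂ} (h : w₀ ∈ Ann l) :
    DifferentiableAt ℂ (fun w => Z (log w)) w₀ := by
  have h0 : w₀ ≠ 0 := ann_ne h
  set L : ℂ → ℂ := fun w => log w₀ + log (w / w₀) with hL
  have hL0 : L w₀ = log w₀ := by simp [hL, div_self h0]
  have hLd : DifferentiableAt ℂ L w₀ := by
    have h1 : DifferentiableAt ℂ (fun w : ℂ => w / w₀) w₀ := by fun_prop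
    have h2 : (fun w : ℂ => w / w₀) w₀ ∈ slitPlane := by
      show w₀ / w₀ ∈ slitPlane
      rw [div_self h0]
      exact one_mem_slitPlane
    exact (h1.clog h2).const_add _
  have hZd : DifferentiableAt ℂ Z (L w₀) := by
    rw [hL0]
    exact hZ.differentiableAt ((isOpen_str l).mem_nhds (log_mem h))
  have hcomp : DifferentiableAt ℂ (fun w => Z (L w)) w₀ :=
    DifferentiableAt.comp w₀ hZd hLd
  refine hcomp.congr_of_eventuallyEq ?_
  have hmem : ∀ᶠ w in 𝓝 w₀, L w ∈ Str l := by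
    have := hLd.continuousAt.preimage_mem_nhds
      ((isOpen_str l).mem_nhds (by rw [hL0]; exact log_mem h))
    exact this
  filter_upwards [hmem, isOpen_ne.mem_nhds h0] with w hw hw0
  apply eq_exp hper hw
  rw [exp_log hw0, hL]
  simp only
  rw [exp_add, exp_log h0, exp_log (div_ne_zero hw0 h0)]
  field_simp

theorem ext_core {Z : ℂ → ℂ} {l : ℝ} (hl : 0 < l) (hZ : DifferentiableOn ℂ Z (Str l))
    (hper : ∀ ω ∈ Str l, Z (ω + 2 * Real.pi * I) = Z ω)
    (hmom : ∀ n : ℕ, ∫ θ in (0 : ℝ)..2 * Real.pi, Z (θ * I) * exp ((n + 1) * (θ * I)) = 0)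
    {w : ℂ} (hw1 : Real.exp (-l) < ‖w‖) (hw2 : ‖w‖ < 1) :
    Z (log w) = (2 * Real.pi * I : ℂ)⁻¹ • ∮ z in C(0, 1), (z - w)⁻¹ • Z (log z) := by
  set T : ℂ → ℂ := fun z => Z (log z) with hT
  have hTd : ∀ z ∈ Ann l, DifferentiableAt ℂ T z := fun z hz => diff_ann hZ hper hz
  have hTc : ContinuousOn T (Ann l) := fun z hz => (hTd z hz).continuousAt.continuousWithinAt
  obtain ⟨ρ, hρ1, hρ2⟩ := exists_between hw1
  have hρ0 : 0 < ρ := (Real.exp_pos _).trans hρ1
  have hρ3 : ρ < 1 := hρ2.trans hw2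
  have hel : 1 < Real.exp l := Real.one_lt_exp_iff.2 hl
  have hwA : w ∈ Ann l := ⟨hw1, hw2.trans hel⟩
  have hw0 : w ≠ 0 := ann_ne hwA
  -- the closed annulus
  have hsub : closedBall (0 : ℂ) 1 \ ball 0 ρ ⊆ Ann l := by
    intro z hz
    have h1 : ‖z‖ ≤ 1 := by simpa using hz.1
    have h2 : ρ ≤ ‖z‖ := by simpa using hz.2
    exact ⟨hρ1.trans_le h2, h1.trans_lt hel⟩
  have hsub2 : ball (0 : ℂ) 1 \ closedBall 0 ρ ⊆ Ann l := by
    intro z hz
    have h1 : ‖z‖ < 1 := by simpa using hz.1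
    have h2 : ρ < ‖z‖ := by simpa using hz.2
    exact ⟨hρ1.trans h2, h1.trans hel⟩
  have hsph : ∀ z ∈ sphere (0 : ℂ) 1, z ∈ Ann l := by
    intro z hz
    have h1 : ‖z‖ = 1 := by simpa using hz
    exact ⟨by rw [h1]; exact hρ1.trans hρ3, by rw [h1]; exact hel⟩
  have hsphρ : ∀ z ∈ sphere (0 : ℂ) ρ, z ∈ Ann l := by
    intro z hz
    have h1 : ‖z‖ = ρ := by simpa using hz
    exact ⟨by rw [h1]; exact hρ1, by rw [h1]; exact hρ3.trans hel⟩
  -- moments on the small circle vanish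
  have hmomρ : ∀ n : ℕ, ∮ z in C(0, ρ), T z * z ^ n = 0 := by
    intro n
    have hcc : ContinuousOn (fun z : ℂ => z * (T z * z ^ n)) (closedBall (0 : ℂ) 1 \ ball 0 ρ) :=
      continuousOn_id.mul ((hTc.mono hsub).mul ((continuous_pow n).continuousOn))
    have hdd : ∀ z ∈ (ball (0 : ℂ) 1 \ closedBall 0 ρ) \ (∅ : Set ℂ),
        DifferentiableAt ℂ (fun z : ℂ => z * (T z * z ^ n)) z := by
      intro z hz
      have := hTd z (hsub2 hz.1)
      fun_prop
    have h1 := Complex.circleIntegral_sub_center_inv_smul_eq_of_differentiable_on_annulus_off_countable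
      hρ0 hρ3.le Set.countable_empty hcc hdd
    have h2 : ∀ R : ℝ, 0 < R → (∮ z in C(0, R), (z - 0)⁻¹ • (z * (T z * z ^ n))) =
        ∮ z in C(0, R), T z * z ^ n := by
      intro R hR
      apply circleIntegral.integral_congr hR.le
      intro z hz
      have hz0 : z ≠ 0 := by
        rw [← norm_pos_iff]
        have : ‖z‖ = R := by simpa using hz
        rw [this]; exact hR
      simp only [sub_zero, smul_eq_mul]
      field_simp
    rw [h2 1 one_pos, h2 ρ hρ0] at h1
    rw [← h1]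
    have h3 : (∮ z in C(0, 1), T z * z ^ n) =
        ∫ θ in (0 : ℝ)..2 * Real.pi, I * (Z (θ * I) * exp ((n + 1) * (θ * I))) := by
      unfold circleIntegral
      apply intervalIntegral.integral_congr
      intro θ _
      simp only [deriv_circleMap, circleMap, smul_eq_mul, zero_add, ofReal_one, one_mul, hT]
      have h4 : Z (log (exp (θ * I))) = Z (θ * I) := by
        have h5 : (θ * I : ℂ) ∈ Str l := by
          have : ((θ : ℂ) * I).re = 0 := by simp
          exact ⟨by rw [this]; linarith, by rw [this]; exact hl⟩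
        exact eq_exp hper h5 (exp_log (exp_ne_zero _))
      rw [h4]
      have h6 : exp (((n : ℂ) + 1) * (θ * I)) = exp (θ * I) * exp (θ * I) ^ n := by
        rw [← Complex.exp_nat_mul, ← Complex.exp_add]
        ring_nf
      rw [h6]
      ring
    rw [h3, intervalIntegral.integral_const_mul, hmom n, mul_zero]
  -- geometric series trick on the small circle
  have hzw : ∀ z ∈ sphere (0 : ℂ) ρ, z - w ≠ 0 := by
    intro z hz h1
    have h2 : ‖z‖ = ρ := by simpa using hz
    have h3 : z = w := by linear_combination h1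
    rw [h3] at h2
    linarith
  have hint : ∀ N : ℕ, ContinuousOn (fun z : ℂ => (z / w) ^ N * ((z - w)⁻¹ * T z)) (sphere 0 ρ) := by
    intro N
    apply ContinuousOn.mul
    · fun_prop
    · apply ContinuousOn.mul
      · exact ContinuousOn.inv₀ (by fun_prop) hzw
      · exact hTc.mono hsphρ
  have hstep : ∀ N : ℕ, (∮ z in C(0, ρ), (z / w) ^ N * ((z - w)⁻¹ * T z)) =
      ∮ z in C(0, ρ), (z / w) ^ (N + 1) * ((z - w)⁻¹ * T z) := by
    intro N
    rw [← sub_eq_zero, ← circleIntegral.integral_sub ((hint N).circleIntegrable hρ0.le)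
      ((hint (N + 1)).circleIntegrable hρ0.le)]
    have h1 : (∮ z in C(0, ρ), ((z / w) ^ N * ((z - w)⁻¹ * T z) -
        (z / w) ^ (N + 1) * ((z - w)⁻¹ * T z))) =
        ∮ z in C(0, ρ), (-(w ^ (N + 1))⁻¹) * (T z * z ^ N) := by
      apply circleIntegral.integral_congr hρ0.le
      intro z hz
      have h2 := hzw z hz
      have e1 : (1 - z / w) * (z - w)⁻¹ = -w⁻¹ := by
        have e2 : (1 - z / w) = -(z - w) / w := by field_simp; ring
        rw [e2]
        field_simp
      show (z / w) ^ N * ((z - w)⁻¹ * T z) - (z / w) ^ (N + 1) * ((z - w)⁻¹ * T z) =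
        -(w ^ (N + 1))⁻¹ * (T z * z ^ N)
      calc (z / w) ^ N * ((z - w)⁻¹ * T z) - (z / w) ^ (N + 1) * ((z - w)⁻¹ * T z)
          = (z / w) ^ N * ((1 - z / w) * (z - w)⁻¹) * T z := by ring
        _ = (z / w) ^ N * (-w⁻¹) * T z := by rw [e1]
        _ = -(w ^ (N + 1))⁻¹ * (T z * z ^ N) := by
          rw [div_pow, pow_succ, mul_inv]; ring
    rw [h1]
    have h2 := circleIntegral.integral_const_mul (-(w ^ (N + 1))⁻¹) (fun z => T z * z ^ N) 0 ρ
    rw [h2, hmomρ N, mul_zero]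
  have hall : ∀ N : ℕ, (∮ z in C(0, ρ), (z - w)⁻¹ * T z) =
      ∮ z in C(0, ρ), (z / w) ^ N * ((z - w)⁻¹ * T z) := by
    intro N
    induction N with
    | zero => simp
    | succ N ih => rw [ih, hstep N]
  have hzero : (∮ z in C(0, ρ), (z - w)⁻¹ * T z) = 0 := by
    have hc0 : ContinuousOn (fun z : ℂ => (z - w)⁻¹ * T z) (sphere 0 ρ) := by
      have := hint 0
      simpa using this
    obtain ⟨B, hB⟩ := (isCompact_sphere (0 : ℂ) ρ).exists_bound_of_continuousOn hc0
    have hq : ρ / ‖w‖ < 1 := (div_lt_one (norm_pos_iff.2 hw0)).2 hρ2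
    have hq0 : 0 ≤ ρ / ‖w‖ := by positivity
    have hbd : ∀ N : ℕ, ‖∮ z in C(0, ρ), (z - w)⁻¹ * T z‖ ≤ 2 * Real.pi * ρ * ((ρ / ‖w‖) ^ N * B) := by
      intro N
      rw [hall N]
      apply circleIntegral.norm_integral_le_of_norm_le_const hρ0.le
      intro z hz
      rw [norm_mul, norm_pow, norm_div]
      have h1 : ‖z‖ = ρ := by simpa using hz
      rw [h1]
      exact mul_le_mul_of_nonneg_left (hB z hz) (by positivity)
    have hlim : Tendsto (fun N : ℕ => 2 * Real.pi * ρ * ((ρ / ‖w‖) ^ N * B)) atTop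
        (𝓝 (2 * Real.pi * ρ * (0 * B))) :=
      ((tendsto_pow_atTop_nhds_zero_of_lt_one hq0 hq).mul_const B).const_mul _
    have h2 : ‖∮ z in C(0, ρ), (z - w)⁻¹ * T z‖ ≤ 2 * Real.pi * ρ * (0 * B) :=
      ge_of_tendsto' hlim hbd
    rw [zero_mul, mul_zero] at h2
    exact norm_le_zero_iff.1 h2
  -- Cauchy's theorem in the annulus for the divided difference
  have hdsc : ContinuousOn (dslope T w) (Ann l) := by
    rw [continuousOn_dslope ((isOpen_ann l).mem_nhds hwA)]
    exact ⟨hTc, hTd w hwA⟩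
  have hcc : ContinuousOn (fun z : ℂ => z * dslope T w z) (closedBall (0 : ℂ) 1 \ ball 0 ρ) :=
    continuousOn_id.mul (hdsc.mono hsub)
  have hdd : ∀ z ∈ (ball (0 : ℂ) 1 \ closedBall 0 ρ) \ ({w} : Set ℂ),
      DifferentiableAt ℂ (fun z : ℂ => z * dslope T w z) z := by
    intro z hz
    have h1 : z ≠ w := hz.2
    have h2 : DifferentiableAt ℂ (dslope T w) z :=
      (differentiableAt_dslope_of_ne h1).2 (hTd z (hsub2 hz.1))
    exact differentiableAt_id.mul h2
  have h1 := Complex.circleIntegral_sub_center_inv_smul_eq_of_differentiable_on_annulus_off_countable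
    hρ0 hρ3.le (Set.countable_singleton w) hcc hdd
  have h2 : ∀ R : ℝ, 0 < R → R ≠ ‖w‖ → (∀ z ∈ sphere (0 : ℂ) R, z ∈ Ann l) →
      (∮ z in C(0, R), (z - 0)⁻¹ • (z * dslope T w z)) =
      (∮ z in C(0, R), (z - w)⁻¹ * T z) - T w * ∮ z in C(0, R), (z - w)⁻¹ := by
    intro R hR hRw hRA
    have hne : ∀ z ∈ sphere (0 : ℂ) R, z ≠ w := by
      intro z hz h3
      have h4 : ‖z‖ = R := by simpa using hz
      exact hRw (by rw [← h4, h3])
    have hinv : ContinuousOn (fun z : ℂ => (z - w)⁻¹) (sphere (0 : ℂ) R) :=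
      ContinuousOn.inv₀ (by fun_prop) (fun z hz => sub_ne_zero.2 (hne z hz))
    rw [← circleIntegral.integral_const_mul, ← circleIntegral.integral_sub]
    · apply circleIntegral.integral_congr hR.le
      intro z hz
      have hz0 : z ≠ 0 := ann_ne (hRA z hz)
      have h3 := hne z hz
      simp only [sub_zero, smul_eq_mul]
      rw [dslope_of_ne _ h3, slope_def_field]
      have h4 : z - w ≠ 0 := sub_ne_zero.2 h3
      field_simp
    · exact (hinv.mul (hTc.mono hRA)).circleIntegrable hR.le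
    · exact (continuousOn_const.mul hinv).circleIntegrable hR.le
  rw [h2 1 one_pos hw2.ne' hsph, h2 ρ hρ0 hρ2.ne hsphρ, hzero] at h1
  have h3 : (∮ z in C(0, 1), (z - w)⁻¹) = 2 * Real.pi * I := by
    apply circleIntegral.integral_sub_inv_of_mem_ball
    simpa using hw2
  have h4 : (∮ z in C(0, ρ), (z - w)⁻¹) = 0 := by
    have hne : ∀ z ∈ closedBall (0 : ℂ) ρ, z - w ≠ 0 := by
      intro z hz h5
      have h6 : ‖z‖ ≤ ρ := by simpa using hz
      have h7 : z = w := by linear_combination h5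
      rw [h7] at h6
      linarith
    apply Complex.circleIntegral_eq_zero_of_differentiable_on_off_countable hρ0.le
      Set.countable_empty
    · exact ContinuousOn.inv₀ (by fun_prop) hne
    · intro z hz
      have h5 : z - w ≠ 0 := hne z (ball_subset_closedBall hz.1)
      exact ((differentiableAt_id.sub_const w)).inv h5
  rw [h3, h4, mul_zero, sub_zero, sub_eq_zero] at h1
  have h5 : (∮ z in C(0, 1), (z - w)⁻¹ • Z (log z)) = T w * (2 * Real.pi * I) := h1
  rw [h5, smul_eq_mul]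
  have h6 : (2 * Real.pi * I : ℂ) ≠ 0 := Complex.two_pi_I_ne_zero
  show T w = _
  field_simp

theorem ext_thm : ∀ (Z : ℂ → ℂ) (l : ℝ), 0 < l → DifferentiableOn ℂ Z (Str l) →
    (∀ ω ∈ Str l, Z (ω + 2 * Real.pi * I) = Z ω) →
    (∀ n : ℕ, ∫ θ in (0 : ℝ)..2 * Real.pi, Z (θ * I) * exp ((n + 1) * (θ * I)) = 0) →
    ∃ G : ℂ → ℂ, DifferentiableOn ℂ G (ball 0 1) ∧
      ∀ ω : ℂ, -l < ω.re → ω.re < 0 → Z ω = G (exp ω) := by
  intro Z l hl hZ hper hmom
  refine ⟨fun w => (2 * Real.pi * I : ℂ)⁻¹ • ∮ z in C(0, 1), (z - w)⁻¹ • Z (log z), ?_, ?_⟩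
  · have hel : 1 < Real.exp l := Real.one_lt_exp_iff.2 hl
    have hsph : ∀ z ∈ sphere (0 : ℂ) 1, z ∈ Ann l := by
      intro z hz
      have h1 : ‖z‖ = 1 := by simpa using hz
      refine ⟨?_, by rw [h1]; exact hel⟩
      rw [h1, Real.exp_neg]
      exact inv_lt_one_of_one_lt₀ hel
    have hc : ContinuousOn (fun z => Z (log z)) (sphere (0 : ℂ) 1) := fun z hz =>
      (diff_ann hZ hper (hsph z hz)).continuousAt.continuousWithinAt
    have h1 : CircleIntegrable (fun z => Z (log z)) 0 ((1 : NNReal) : ℝ) :=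
      hc.circleIntegrable zero_le_one
    have h2 := (hasFPowerSeriesOn_cauchy_integral h1 one_pos).differentiableOn
    refine h2.mono ?_
    intro w hw
    have h3 : dist w 0 < 1 := hw
    rw [Metric.mem_eball, edist_nndist, ENNReal.coe_lt_coe, ← NNReal.coe_lt_coe]
    simpa using h3
  · intro ω h1 h2
    have h3 : ‖exp ω‖ = Real.exp ω.re := Complex.norm_exp ω
    have h4 := ext_core hl hZ hper hmom (w := exp ω)
      (by rw [h3]; exact Real.exp_lt_exp.2 h1)
      (by rw [h3, ← Real.exp_zero]; exact Real.exp_lt_exp.2 h2)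
    simp only
    rw [← h4]
    apply eq_exp hper _ (exp_log (exp_ne_zero _)).symm
    apply log_mem
    refine ⟨by rw [h3]; exact Real.exp_lt_exp.2 h1, ?_⟩
    rw [h3]
    exact Real.exp_lt_exp.2 (by linarith)

end Pool.Agent.Y458.SC
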