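import Pool.Agent.Y245.SC.Stm
import Pool.Agent.Y458.SC.Ext

set_option autoImplicit false

/-!
# SC-EXT (helper458, for project SC of helper245)
-/

namespace Pool.Agent.Y458.SC

theorem t_EXT : Pool.Agent.Y245.SC.S_EXT := ext_thm

end Pool.Agent.Y458.SC
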